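import Mathlib

/-!
Abstract orbits: reachability under iteration, one-orbit maps, the recursion lemma and the
counting lemma.
-/

namespace UniS

/-- `y` is reached from `x` by iterating `f`. -/
def Rch {X : Type*} (f : X → X) (x y : X) : Prop := ∃ k : ℕ, f^[k] x = y

/-- `f` has one orbit on `S`. -/
def OneOrb {X : Type*} (f : X → X) (S : Set X) : Prop := ∀ x ∈ S, ∀ y ∈ S, Rch f x y

variable {X : Type*} {f : X → X} {S : Set X}

theorem Rch.refl (x : X) : Rch f x x := ⟨0, rfl⟩

theorem Rch.one (x : X) : Rch f x (f x) := ⟨1, rfl⟩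

theorem Rch.trans {x y z : X} (h1 : Rch f x y) (h2 : Rch f y z) : Rch f x z := by
  obtain ⟨k, rfl⟩ := h1
  obtain ⟨m, rfl⟩ := h2
  exact ⟨m + k, by rw [Function.iterate_add_apply]⟩

theorem Rch.step {x y : X} (h : Rch f (f x) y) : Rch f x y := (Rch.one x).trans h

theorem iterate_mem (hm : Set.MapsTo f S S) {x : X} (hx : x ∈ S) (k : ℕ) : f^[k] x ∈ S := by
  induction k with
  | zero => simpa using hx
  | succ k ih => rw [Function.iterate_succ_apply']; exact hm ih

theorem Rch.mem (hm : Set.MapsTo f S S) {x y : X} (hx : x ∈ S) (h : Rch f x y) : y ∈ S := by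
  obtain ⟨k, rfl⟩ := h
  exact iterate_mem hm hx k

theorem iterate_injOn (hm : Set.MapsTo f S S) (hi : Set.InjOn f S) (k : ℕ) :
    Set.InjOn (f^[k]) S := by
  induction k with
  | zero => intro x _ y _ h; simpa using h
  | succ k ih =>
    intro x hx y hy h
    rw [Function.iterate_succ_apply', Function.iterate_succ_apply'] at h
    exact ih hx hy (hi (iterate_mem hm hx k) (iterate_mem hm hy k) h)

/-- On a finite invariant set an injective map is periodic. -/
theorem exists_period (hS : S.Finite) (hm : Set.MapsTo f S S) (hi : Set.InjOn f S) {x : X}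
    (hx : x ∈ S) : ∃ p : ℕ, 0 < p ∧ f^[p] x = x := by
  have hninj : ¬ Function.Injective (fun k : ℕ => f^[k] x) := by
    intro hinj
    have : (Set.range (fun k : ℕ => f^[k] x)).Infinite := Set.infinite_range_of_injective hinj
    exact this (hS.subset (by rintro _ ⟨k, rfl⟩; exact iterate_mem hm hx k))
  simp only [Function.Injective, not_forall] at hninj
  obtain ⟨a, b, hab, hne⟩ := hninj
  wlog hlt : a < b generalizing a b
  · exact this b a hab.symm (Ne.symm hne) (lt_of_le_of_ne (not_lt.mp hlt) (Ne.symm hne))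
  refine ⟨b - a, by omega, ?_⟩
  have hb : b = a + (b - a) := by omega
  rw [hb, Function.iterate_add_apply] at hab
  exact (iterate_injOn hm hi a hx (iterate_mem hm hx _) hab).symm

theorem Rch.symm (hS : S.Finite) (hm : Set.MapsTo f S S) (hi : Set.InjOn f S) {x y : X}
    (hx : x ∈ S) (h : Rch f x y) : Rch f y x := by
  obtain ⟨k, rfl⟩ := h
  obtain ⟨p, hp, hpx⟩ := exists_period hS hm hi hx
  have hper : ∀ m : ℕ, f^[m * p] x = x := by
    intro m
    induction m with
    | zero => simp
    | succ m ih => rw [Nat.succ_mul, Function.iterate_add_apply, hpx, ih]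
  refine ⟨(k + 1) * p - k, ?_⟩
  rw [← Function.iterate_add_apply]
  have : (k + 1) * p - k + k = (k + 1) * p := by
    have : k ≤ (k + 1) * p := le_trans (Nat.le_succ k) (Nat.le_mul_of_pos_right _ hp)
    omega
  rw [this, hper]

/-- The recursion lemma. -/
theorem OneOrb.of_block (hS : S.Finite) (hm : Set.MapsTo f S S) (hi : Set.InjOn f S)
    {X' : Type*} {g : X' → X'} {S' : Set X'} (hg : Set.MapsTo g S' S') (hone : OneOrb g S')
    (emb : X' → X) (hemb : ∀ s ∈ S', emb s ∈ S)
    (hT : ∀ s ∈ S', Rch f (emb s) (emb (g s)))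
    (hC : ∀ x ∈ S, ∃ s ∈ S', Rch f (emb s) x ∨ Rch f x (emb s)) : OneOrb f S := by
  have key : ∀ s ∈ S', ∀ t ∈ S', Rch f (emb s) (emb t) := by
    intro s hs t ht
    obtain ⟨k, rfl⟩ := hone s hs t ht
    clear ht
    induction k with
    | zero => exact Rch.refl _
    | succ k ih =>
      rw [Function.iterate_succ_apply']
      exact ih.trans (hT _ (iterate_mem hg hs k))
  have hC' : ∀ x ∈ S, ∃ s ∈ S', Rch f (emb s) x ∧ Rch f x (emb s) := by
    intro x hx
    obtain ⟨s, hs, h | h⟩ := hC x hx
    · exact ⟨s, hs, h, h.symm hS hm hi (hemb s hs)⟩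
    · exact ⟨s, hs, h.symm hS hm hi hx, h⟩
  intro x hx y hy
  obtain ⟨s, hs, -, h1⟩ := hC' x hx
  obtain ⟨t, ht, h2, -⟩ := hC' y hy
  exact h1.trans ((key s hs t ht).trans h2)

/-- The counting lemma: if the block states `B` have return times at least `tau` and the
return times add up to the size of `S`, then every state of `S` is reached from `B`. -/
theorem cover_of_count [DecidableEq X] (T : Finset X) (hm : Set.MapsTo f T T)
    (hi : Set.InjOn f T) (B : Finset X) (hB : B ⊆ T) (tau : X → ℕ)
    (hret : ∀ s ∈ B, ∀ k, 0 < k → k < tau s → f^[k] s ∉ B)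
    (hsum : T.card ≤ ∑ s ∈ B, tau s) : ∀ x ∈ T, ∃ s ∈ B, Rch f s x := by
  classical
  let P : Finset (Σ _ : X, ℕ) := B.sigma (fun s => Finset.range (tau s))
  have hcard : P.card = ∑ s ∈ B, tau s := by simp [P, Finset.card_sigma]
  let F : (Σ _ : X, ℕ) → X := fun p => f^[p.2] p.1
  have hmap : ∀ p ∈ P, F p ∈ T := by
    rintro ⟨s, k⟩ hp
    simp only [P, Finset.mem_sigma, Finset.mem_range] at hp
    exact iterate_mem hm (hB hp.1) k
  have hinj : Set.InjOn F P := by
    rintro ⟨s, k⟩ hp ⟨s', k'⟩ hp' h
    simp only [P, Finset.mem_coe, Finset.mem_sigma, Finset.mem_range] at hp hp'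
    simp only [F] at h
    wlog hle : k ≤ k' generalizing s k s' k'
    · exact (this s' k' s k h.symm hp' hp (by omega)).symm
    have hk : k' = k + (k' - k) := by omega
    rw [hk, Function.iterate_add_apply] at h
    have h2 := iterate_injOn hm hi k (hB hp.1) (iterate_mem hm (hB hp'.1) _) h
    by_cases h0 : k' - k = 0
    · have : k = k' := by omega
      subst this
      simp only [Nat.sub_self, Function.iterate_zero, id_eq] at h2
      subst h2
      rfl
    · exact absurd (h2 ▸ hp.1) (hret s' hp'.1 (k' - k) (by omega) (by omega))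
  have himg : P.image F = T := by
    apply Finset.eq_of_subset_of_card_le
    · intro x hx
      rw [Finset.mem_image] at hx
      obtain ⟨p, hp, rfl⟩ := hx
      exact hmap p hp
    · rw [Finset.card_image_of_injOn hinj, hcard]
      exact hsum
  intro x hx
  rw [← himg, Finset.mem_image] at hx
  obtain ⟨p, hp, rfl⟩ := hx
  simp only [P, Finset.mem_sigma] at hp
  exact ⟨p.1, hp.1, p.2, rfl⟩

/-- If the orbit of one point has as many points as `S`, there is one orbit. -/
theorem OneOrb.of_period (hS : S.Finite) (hm : Set.MapsTo f S S) (hi : Set.InjOn f S) {x0 : X}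
    (hx : x0 ∈ S) {N : ℕ} (hN : 0 < N) (hcard : S.ncard ≤ N) (hper : f^[N] x0 = x0)
    (hpr : ∀ p, p.Prime → p ∣ N → f^[N / p] x0 ≠ x0) : OneOrb f S := by
  classical
  have hP : Function.minimalPeriod f x0 = N := by
    have hdvd : Function.minimalPeriod f x0 ∣ N := Function.IsPeriodicPt.minimalPeriod_dvd hper
    obtain ⟨c, hc⟩ := hdvd
    by_contra hne
    have hc1 : c ≠ 1 := by
      rintro rfl
      exact hne (by rw [hc, mul_one])
    have hc0 : c ≠ 0 := by
      rintro rfl
      omega
    obtain ⟨p, hp, d, hd⟩ := Nat.exists_prime_and_dvd hc1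
    refine hpr p hp ⟨Function.minimalPeriod f x0 * d, by rw [hc, hd]; ring⟩ ?_
    have hq : N / p = Function.minimalPeriod f x0 * d := by
      apply Nat.div_eq_of_eq_mul_right hp.pos
      rw [hc, hd]; ring
    rw [hq]
    exact (Function.isPeriodicPt_minimalPeriod f x0).mul_const d
  have hreach : ∀ y ∈ S, Rch f x0 y := by
    let F : ℕ → X := fun k => f^[k] x0
    have hinj : Set.InjOn F (Finset.range N : Finset ℕ) := by
      intro a ha b hb hab
      simp only [Finset.coe_range, Set.mem_Iio] at ha hb
      exact Function.iterate_injOn_Iio_minimalPeriod (f := f) (x := x0)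
        (Set.mem_Iio.mpr (by rw [hP]; exact ha)) (Set.mem_Iio.mpr (by rw [hP]; exact hb)) hab
    have hsub : (Finset.range N).image F ⊆ hS.toFinset := by
      intro y hy
      rw [Finset.mem_image] at hy
      obtain ⟨k, -, rfl⟩ := hy
      rw [Set.Finite.mem_toFinset]
      exact iterate_mem hm hx k
    have heq : (Finset.range N).image F = hS.toFinset := by
      apply Finset.eq_of_subset_of_card_le hsub
      rw [Finset.card_image_of_injOn hinj, Finset.card_range, ← Set.ncard_eq_toFinset_card S hS]
      exact hcard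
    intro y hy
    have hy2 : y ∈ (Finset.range N).image F := by
      rw [heq, Set.Finite.mem_toFinset]; exact hy
    rw [Finset.mem_image] at hy2
    obtain ⟨k, -, rfl⟩ := hy2
    exact ⟨k, rfl⟩
  intro x hx' y hy
  exact ((hreach x hx').symm hS hm hi hx).trans (hreach y hy)

end UniS
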