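import Pool.Agent.UniS.Stmt

/-!
The auxiliary problem `P(b)`: words of `b` letters (`b` even) with a passive end marker.
A state is a zipper `(L, x, R)`: the word is `L.reverse ++ x :: R` and `x` is marked.
-/

namespace UniS

/-- Zippers. -/
abbrev Zp := List ℕ × ℕ × List ℕ

/-- The word of a zipper. -/
def wrd (s : Zp) : List ℕ := s.1.reverse ++ s.2.1 :: s.2.2

/-- The marked letter moves one place to the right (from the end to the beginning). -/
def mvP : Zp → Zp
  | (L, x, y :: R) => (y :: L, x, R)
  | (L, x, []) => ([], x, L.reverse)

/-- The letter before the mark is marked (the last letter if the mark is at the beginning). -/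
def prP : Zp → Zp
  | (y :: L, x, R) => (L, y, x :: R)
  | ([], x, R) => match R.reverse with
    | [] => ([], x, [])
    | y :: s => (s ++ [x], y, [])

/-- One step of `P(b)`; `hot` is the set of words at which the second rule is used. -/
def stepP (hot : List ℕ → Bool) (s : Zp) : Zp := if hot (wrd s) then mvP (prP s) else mvP s

/-- The states with the letters `0, .., b - 1`. -/
def ZWords (b : ℕ) : Set Zp := {s | (wrd s).Perm (List.range b)}

/-- The next mark: inverse of `prP`. -/
def nxP : Zp → Zp
  | (L, x, y :: R) => (x :: L, y, R)
  | (L, x, []) => match L.reverse with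
    | [] => ([], x, [])
    | y :: s => ([], y, s ++ [x])

theorem wrd_prP (s : Zp) : wrd (prP s) = wrd s := by
  rcases s with ⟨L, x, R⟩
  cases L with
  | cons y L => simp [prP, wrd]
  | nil =>
    rcases List.eq_nil_or_concat R with rfl | ⟨t, y, rfl⟩
    · simp [prP, wrd]
    · simp [prP, wrd]

theorem nxP_prP (s : Zp) : nxP (prP s) = s := by
  rcases s with ⟨L, x, R⟩
  cases L with
  | cons y L => simp [prP, nxP]
  | nil =>
    rcases List.eq_nil_or_concat R with rfl | ⟨t, y, rfl⟩
    · simp [prP, nxP]
    · simp [prP, nxP]

theorem prP_injective : Function.Injective prP := fun s t h => by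
  rw [← nxP_prP s, h, nxP_prP]

theorem wrd_mvP_perm (s : Zp) : (wrd (mvP s)).Perm (wrd s) := by
  rcases s with ⟨L, x, R⟩
  cases R with
  | cons y R =>
    simp only [mvP, wrd, List.reverse_cons, List.append_assoc, List.singleton_append]
    exact (List.Perm.swap x y R).append_left _
  | nil =>
    simp only [mvP, wrd, List.reverse_nil, List.nil_append]
    exact (List.perm_append_singleton x L.reverse).symm

theorem mvP_injective : Function.Injective mvP := by
  rintro ⟨L, x, R⟩ ⟨L', x', R'⟩ h
  cases R with
  | cons y R =>
    cases R' with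
    | cons y' R' =>
      simp only [mvP, Prod.mk.injEq, List.cons.injEq] at h
      obtain ⟨⟨rfl, rfl⟩, rfl, rfl⟩ := h
      rfl
    | nil => simp [mvP] at h
  | nil =>
    cases R' with
    | cons y' R' => simp [mvP] at h
    | nil =>
      simp only [mvP, Prod.mk.injEq, true_and] at h
      obtain ⟨rfl, h2⟩ := h
      rw [List.reverse_injective h2]

theorem stepP_mapsTo (hot : List ℕ → Bool) (b : ℕ) :
    Set.MapsTo (stepP hot) (ZWords b) (ZWords b) := by
  intro s hs
  unfold stepP
  split
  · refine (wrd_mvP_perm _).trans ?_
    rw [wrd_prP]; exact hs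
  · exact (wrd_mvP_perm _).trans hs

theorem stepP_injective (hot : List ℕ → Bool) : Function.Injective (stepP hot) := by
  intro s t h
  unfold stepP at h
  by_cases hs : hot (wrd s) = true <;> by_cases ht : hot (wrd t) = true
  · rw [if_pos hs, if_pos ht] at h
    exact prP_injective (mvP_injective h)
  · rw [if_pos hs, if_neg ht] at h
    have h2 := mvP_injective h
    rw [← h2, wrd_prP] at ht
    exact absurd hs ht
  · rw [if_neg hs, if_pos ht] at h
    have h2 := mvP_injective h
    rw [h2, wrd_prP] at hs
    exact absurd ht hs
  · rw [if_neg hs, if_neg ht] at h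
    exact mvP_injective h

theorem zwords_finite (b : ℕ) : (ZWords b).Finite := by
  have hA : (Words b).Finite := words_finite b
  have hinj : Set.InjOn (fun s : Zp => (wrd s, s.1.length)) (ZWords b) := by
    rintro ⟨L, x, R⟩ _ ⟨L', x', R'⟩ _ h
    simp only [wrd, Prod.mk.injEq] at h
    obtain ⟨h1, h2⟩ := h
    have h3 := List.append_inj h1 (by simpa using h2)
    simp only [List.cons.injEq] at h3
    rw [List.reverse_injective h3.1, h3.2.1, h3.2.2]
  have hfin : ((Words b) ×ˢ (Set.Iio (b + 1))).Finite := hA.prod (Set.finite_Iio _)
  refine Set.Finite.of_finite_image (hfin.subset ?_) hinj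
  rintro _ ⟨⟨L, x, R⟩, hs, rfl⟩
  refine ⟨hs, ?_⟩
  have hl : (wrd (L, x, R)).length = b := by
    have hs' : (wrd (L, x, R)).Perm (List.range b) := hs
    simpa using hs'.length_eq
  simp only [wrd, List.length_append, List.length_reverse, List.length_cons] at hl
  simp only [Set.mem_Iio]
  omega

/-! ### Parity of words -/

/-- Parity of the number of inversions (`true` = odd). -/
def odd : List ℕ → Bool
  | [] => false
  | x :: l => xor (odd l) ((l.countP (· < x)) % 2 == 1)

theorem odd_perm_cons {l l' : List ℕ} (h : l.Perm l') (x : ℕ) (ho : odd l = odd l') :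
    odd (x :: l) = odd (x :: l') := by
  simp only [odd, ho, h.countP_eq]

theorem odd_swap (u v : List ℕ) {x y : ℕ} (hxy : x ≠ y) :
    odd (u ++ y :: x :: v) = !odd (u ++ x :: y :: v) := by
  induction u with
  | nil =>
    simp only [List.nil_append, odd, List.countP_cons]
    rcases lt_or_gt_of_ne hxy with h | h
    · have h' : ¬ y < x := by omega
      simp only [h, h', decide_true, decide_false, if_true, Bool.false_eq_true, if_false, add_zero]
      rcases Nat.mod_two_eq_zero_or_one (List.countP (fun z => decide (z < y)) v) with e | e <;>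
      rcases Nat.mod_two_eq_zero_or_one (List.countP (fun z => decide (z < x)) v) with e' | e' <;>
      simp [Nat.add_mod, e, e']
    · have h' : ¬ x < y := by omega
      simp only [h, h', decide_true, decide_false, if_true, Bool.false_eq_true, if_false, add_zero]
      rcases Nat.mod_two_eq_zero_or_one (List.countP (fun z => decide (z < y)) v) with e | e <;>
      rcases Nat.mod_two_eq_zero_or_one (List.countP (fun z => decide (z < x)) v) with e' | e' <;>
      simp [Nat.add_mod, e, e']
  | cons a u ih =>
    have hp : (u ++ y :: x :: v).Perm (u ++ x :: y :: v) :=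
      (List.Perm.swap x y v).append_left u
    simp only [List.cons_append, odd, ih, hp.countP_eq]
    cases odd (u ++ x :: y :: v) <;> simp

theorem odd_move (u w v : List ℕ) {x : ℕ} (hx : x ∉ w) :
    odd (u ++ x :: (w ++ v)) = xor (odd (u ++ (w ++ x :: v))) (w.length % 2 == 1) := by
  induction w generalizing u with
  | nil => simp
  | cons a w ih =>
    have hxa : a ≠ x := fun h => hx (by simp [h])
    have hxw : x ∉ w := fun h => hx (by simp [h])
    have e1 : u ++ x :: (a :: w ++ v) = u ++ x :: a :: (w ++ v) := by simp
    have e2 : u ++ a :: x :: (w ++ v) = (u ++ [a]) ++ x :: (w ++ v) := by simp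
    rw [e1, odd_swap u (w ++ v) hxa, e2, ih (u ++ [a]) hxw]
    have e3 : u ++ [a] ++ (w ++ x :: v) = u ++ (a :: w ++ x :: v) := by simp
    rw [e3]
    rcases Nat.mod_two_eq_zero_or_one w.length with e | e <;>
      simp [Nat.add_mod, e]

theorem odd_mvP {s : Zp} (hnd : (wrd s).Nodup) (hev : (wrd s).length % 2 = 0) :
    odd (wrd (mvP s)) = !odd (wrd s) := by
  rcases s with ⟨L, x, R⟩
  cases R with
  | cons y R =>
    have hxy : x ≠ y := by
      intro h
      subst h
      simp only [wrd, List.nodup_append, List.nodup_cons] at hnd
      exact hnd.2.1.1 (by simp)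
    simp only [mvP, wrd, List.reverse_cons, List.append_assoc, List.singleton_append]
    exact odd_swap _ _ hxy
  | nil =>
    have hx : x ∉ L.reverse := by
      intro h
      simp only [wrd, List.nodup_append] at hnd
      exact hnd.2.2 x h x (by simp) rfl
    have h := odd_move [] L.reverse [] hx
    simp only [List.nil_append, List.append_nil, List.length_reverse] at h
    have hL : L.length % 2 = 1 := by
      simp only [wrd, List.length_append, List.length_reverse, List.length_cons,
        List.length_nil] at hev
      omega
    simp only [mvP, wrd, List.reverse_nil, List.nil_append, h, hL]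
    simp

/-- Appending the two largest letters does not change the parity. -/
theorem odd_append_two {r : List ℕ} {b : ℕ} (h : ∀ x ∈ r, x < b) :
    odd (r ++ [b, b + 1]) = odd r := by
  induction r with
  | nil => simp [odd]
  | cons a r ih =>
    have ha : a < b := h a (by simp)
    have h1 : ¬ b < a := by omega
    have h2 : ¬ b + 1 < a := by omega
    simp only [List.cons_append, odd, ih (fun x hx => h x (by simp [hx])), List.countP_append,
      List.countP_cons, h1, h2, decide_false, List.countP_nil]
    simp

theorem words_ncard (n : ℕ) : (Words n).ncard = n.factorial := by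
  have : Words n = ↑((List.range n).permutations.toFinset) := by
    ext v
    simp only [List.coe_toFinset, Set.mem_ofPred_eq, List.mem_permutations]
    rfl
  rw [this, Set.ncard_coe_finset, List.toFinset_card_of_nodup, List.length_permutations,
    List.length_range]
  exact List.nodup_permutations _ List.nodup_range

theorem zwords_ncard_le (b : ℕ) : (ZWords b).ncard ≤ b.factorial * b := by
  have hinj : Set.InjOn (fun s : Zp => (wrd s, s.1.length)) (ZWords b) := by
    rintro ⟨L, x, R⟩ _ ⟨L', x', R'⟩ _ h
    simp only [wrd, Prod.mk.injEq] at h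
    obtain ⟨h1, h2⟩ := h
    have h3 := List.append_inj h1 (by simpa using h2)
    simp only [List.cons.injEq] at h3
    rw [List.reverse_injective h3.1, h3.2.1, h3.2.2]
  have hfin : ((Words b) ×ˢ (Set.Iio b)).Finite := (words_finite b).prod (Set.finite_Iio _)
  have hsub : (fun s : Zp => (wrd s, s.1.length)) '' ZWords b ⊆ (Words b) ×ˢ (Set.Iio b) := by
    rintro _ ⟨⟨L, x, R⟩, hs, rfl⟩
    refine ⟨hs, ?_⟩
    have hl : (wrd (L, x, R)).length = b := by
      have hs' : (wrd (L, x, R)).Perm (List.range b) := hs
      simpa using hs'.length_eq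
    simp only [wrd, List.length_append, List.length_reverse, List.length_cons] at hl
    simp only [Set.mem_Iio]
    omega
  calc (ZWords b).ncard = ((fun s : Zp => (wrd s, s.1.length)) '' ZWords b).ncard :=
        hinj.ncard_image.symm
    _ ≤ ((Words b) ×ˢ (Set.Iio b)).ncard := Set.ncard_le_ncard hsub hfin
    _ = b.factorial * b := by
        rw [Set.ncard_prod, words_ncard]
        congr 1
        rw [Set.ncard_eq_toFinset_card']
        simp

/-! ### The base case `b = 4` -/

/-- The cold words for `b = 4`. -/
def cold4 : List (List ℕ) := [[1, 0, 3, 2], [2, 3, 0, 1], [3, 2, 1, 0]]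

def hot4 (w : List ℕ) : Bool := !odd w && !(cold4.contains w)

theorem oneOrb4 : OneOrb (stepP hot4) (ZWords 4) := by
  refine OneOrb.of_period (x0 := ([], 0, [1, 2, 3])) (N := 96) (zwords_finite 4)
    (stepP_mapsTo _ _) ((stepP_injective _).injOn) ?_ (by norm_num) (zwords_ncard_le 4) ?_ ?_
  · show (wrd ([], 0, [1, 2, 3])).Perm (List.range 4)
    decide
  · decide +kernel
  · intro p hp hd
    have : p = 2 ∨ p = 3 := by
      have h96 : (96 : ℕ) = 2 ^ 5 * 3 := by norm_num
      rw [h96] at hd
      rcases (Nat.Prime.dvd_mul hp).mp hd with h | h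
      · left; exact (Nat.prime_dvd_prime_iff_eq hp Nat.prime_two).mp (hp.dvd_of_dvd_pow h)
      · right; exact (Nat.prime_dvd_prime_iff_eq hp Nat.prime_three).mp h
    rcases this with rfl | rfl
    · decide +kernel
    · decide +kernel

end UniS
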