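import Pool.Agent.UniS.QBase

/-!
The base case `Q(6)`: one orbit of length `720`.
-/

namespace UniS

/-- The codes (base `6`) of the words, read from `0`, at which the rule is hot. -/
def hotCodes6 : List ℕ := [
  1870, 2105, 2150, 2265, 2300, 2500, 2535, 2985, 3310, 3395, 3515, 3655, 3805, 3825, 4205,
  4510, 4940, 5065, 5525, 5595, 5755, 5900, 5915, 6320, 6355, 6795, 6860, 6970, 7190, 7210,
  7285, 7425, 7460]

/-- The word as a number in base `6`. -/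
def code6 (l : List ℕ) : ℕ := l.foldl (fun a x => a * 6 + x) 0

/-- The rule for `Q(6)`. -/
def hotQ6 : List ℕ → Bool := ruleQ (fun w => hotCodes6.elem (code6 w))

/-- The states of the orbit at the times `24`, `48`, .., `720`. -/
def chk6 : List (List ℕ) := [
  [3, 1, 2, 0, 4, 5], [4, 1, 0, 3, 5, 2], [4, 0, 5, 2, 1, 3], [1, 5, 2, 4, 3, 0], [3, 0, 5, 1,
  4, 2], [5, 4, 2, 0, 1, 3], [0, 5, 3, 2, 4, 1], [5, 3, 2, 4, 0, 1], [2, 0, 1, 4, 3, 5], [3, 5,
  0, 2, 1, 4], [5, 3, 1, 0, 2, 4], [2, 0, 3, 4, 1, 5], [4, 2, 1, 5, 0, 3], [5, 1, 4, 2, 3, 0],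
  [1, 0, 5, 3, 4, 2], [3, 5, 1, 0, 4, 2], [4, 2, 3, 1, 0, 5], [4, 2, 1, 0, 5, 3], [2, 1, 3, 5,
  0, 4], [1, 0, 5, 4, 3, 2], [0, 3, 2, 5, 4, 1], [0, 3, 5, 4, 1, 2], [4, 3, 5, 2, 0, 1], [2, 1,
  0, 4, 5, 3], [1, 3, 2, 4, 5, 0], [0, 2, 5, 3, 1, 4], [0, 3, 4, 5, 2, 1], [2, 4, 0, 3, 1, 5],
  [0, 1, 5, 3, 4, 2], [0, 1, 2, 3, 4, 5]]

theorem chkQ6 : chkQ (stepQ hotQ6) 24 [0, 1, 2, 3, 4, 5] chk6 = true := by
  decide +kernel

theorem oneOrbQ6 : OneOrb (stepQ hotQ6) (Words 6) := by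
  refine oneOrbQ_of (by norm_num) ?_ ?_
  · exact (chkQ_spec chkQ6 29 (by decide)).trans (by decide)
  · intro p hp hd
    have h720 : Nat.factorial 6 = 2 ^ 4 * (3 ^ 2 * 5) := by decide
    have : p = 2 ∨ p = 3 ∨ p = 5 := by
      rw [h720] at hd
      rcases (Nat.Prime.dvd_mul hp).mp hd with h | h
      · left; exact (Nat.prime_dvd_prime_iff_eq hp Nat.prime_two).mp (hp.dvd_of_dvd_pow h)
      · right
        rcases (Nat.Prime.dvd_mul hp).mp h with h | h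
        · left; exact (Nat.prime_dvd_prime_iff_eq hp Nat.prime_three).mp (hp.dvd_of_dvd_pow h)
        · right; exact (Nat.prime_dvd_prime_iff_eq hp Nat.prime_five).mp h
    rcases this with rfl | rfl | rfl
    · exact fun h => absurd ((chkQ_spec chkQ6 14 (by decide)).symm.trans h) (by decide)
    · exact fun h => absurd ((chkQ_spec chkQ6 9 (by decide)).symm.trans h) (by decide)
    · exact fun h => absurd ((chkQ_spec chkQ6 5 (by decide)).symm.trans h) (by decide)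

end UniS
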