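import Pool.Agent.UniS.PB

/-!
Tools for the base cases `Q(6)`, `Q(8)`, ..: rules given by a predicate on the word read from
the letter `0`, and long orbits cut into pieces.
-/

namespace UniS

/-- The circular word read from the letter `0`. -/
def canQ (l : List ℕ) : List ℕ :=
  l.dropWhile (fun a => !(a == 0)) ++ l.takeWhile (fun a => !(a == 0))

theorem canQ_append {a : List ℕ} (b : List ℕ) (ha : 0 ∉ a) :
    canQ (a ++ 0 :: b) = 0 :: (b ++ a) := by
  have h1 : ∀ a : List ℕ, 0 ∉ a →
      (a ++ 0 :: b).dropWhile (fun a => !(a == 0)) = 0 :: b ∧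
      (a ++ 0 :: b).takeWhile (fun a => !(a == 0)) = a := by
    intro a
    induction a with
    | nil => intro _; simp
    | cons x a ih =>
      intro h
      have hx : x ≠ 0 := fun h' => h (by simp [h'])
      have hb : (!(x == 0)) = true := by simp [hx]
      obtain ⟨i1, i2⟩ := ih (fun h' => h (by simp [h']))
      constructor
      · rw [List.cons_append, List.dropWhile_cons, if_pos hb, i1]
      · rw [List.cons_append, List.takeWhile_cons, if_pos hb, i2]
  obtain ⟨h2, h3⟩ := h1 a ha
  unfold canQ
  rw [h2, h3, List.cons_append]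

theorem canQ_rot (x : ℕ) (r : List ℕ) (h : (x :: r).count 0 = 1) :
    canQ (x :: r) = canQ (r ++ [x]) := by
  by_cases hx : x = 0
  · subst hx
    have hr : 0 ∉ r := by
      rw [List.count_cons_self] at h
      exact List.count_eq_zero.mp (by omega)
    have e1 := canQ_append (a := []) r (by simp)
    have e2 := canQ_append (a := r) [] hr
    rw [List.nil_append] at e1
    rw [e1, e2]
    simp
  · have hr : r.count 0 = 1 := by
      rw [List.count_cons_of_ne hx] at h
      exact h
    have hm : 0 ∈ r := List.count_pos_iff.mp (by omega)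
    obtain ⟨a, b, rfl⟩ := List.append_of_mem hm
    have hc : a.count 0 = 0 := by
      rw [List.count_append, List.count_cons_self] at hr
      omega
    have ha : 0 ∉ a := List.count_eq_zero.mp hc
    have hxa : 0 ∉ x :: a := by
      intro h'
      rcases List.mem_cons.mp h' with h' | h'
      · exact hx h'.symm
      · exact ha h'
    have e1 := canQ_append (a := x :: a) b hxa
    have e2 := canQ_append (a := a) (b ++ [x]) ha
    rw [List.cons_append] at e1
    have e3 : a ++ 0 :: b ++ [x] = a ++ 0 :: (b ++ [x]) := by simp
    rw [e1, e3, e2]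
    simp

/-- The rule given by a predicate on the word read from `0`. -/
def ruleQ (F : List ℕ → Bool) (v : List ℕ) : Bool := (v.count 0 == 1) && F (canQ v)

theorem ruleQ_rot (F : List ℕ → Bool) (x : ℕ) (r : List ℕ) :
    ruleQ F (x :: r) = ruleQ F (r ++ [x]) := by
  unfold ruleQ
  have hp : (r ++ [x]).count 0 = (x :: r).count 0 :=
    (List.perm_append_singleton x r).count_eq 0
  rw [hp]
  by_cases h : (x :: r).count 0 = 1
  · rw [canQ_rot x r h]
  · have hb : ((x :: r).count 0 == 1) = false := by simp [h]
    rw [hb, Bool.false_and, Bool.false_and]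

/-- The iterates of `f` from `a` at the times `k`, `2 k`, .. are the entries of the list. -/
def chkQ (f : List ℕ → List ℕ) (k : ℕ) : List ℕ → List (List ℕ) → Bool
  | _, [] => true
  | a, b :: l => (f^[k] a == b) && chkQ f k b l

theorem chkQ_spec {f : List ℕ → List ℕ} {k : ℕ} {a : List ℕ} {l : List (List ℕ)}
    (h : chkQ f k a l = true) (i : ℕ) (hi : i < l.length) :
    f^[k * (i + 1)] a = l.getD i [] := by
  induction l generalizing a i with
  | nil => simp at hi
  | cons b l ih =>
    rw [chkQ, Bool.and_eq_true, beq_iff_eq] at h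
    cases i with
    | zero =>
      rw [zero_add, mul_one, h.1]
      rfl
    | succ i =>
      rw [Nat.mul_succ, Function.iterate_add_apply, h.1]
      exact ih h.2 i (by simpa using hi)

/-- Two lists of check points, one after the other. -/
theorem chkQ_append {f : List ℕ → List ℕ} {k : ℕ} {a b : List ℕ} {l l' : List (List ℕ)}
    (h : chkQ f k a l = true) (hb : l.getLastD a = b) (h' : chkQ f k b l' = true) :
    chkQ f k a (l ++ l') = true := by
  induction l generalizing a with
  | nil =>
    subst hb
    exact h'
  | cons c l ih =>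
    rw [chkQ, Bool.and_eq_true] at h
    rw [List.cons_append, chkQ, Bool.and_eq_true]
    refine ⟨h.1, ih h.2 ?_⟩
    rw [← hb]
    cases l with
    | nil => rfl
    | cons d l => rfl

/-- One orbit from a rule on the word read from `0`. -/
theorem oneOrbQ_of {F : List ℕ → Bool} {n : ℕ} (hn : 2 ≤ n)
    (h0 : (stepQ (ruleQ F))^[n.factorial] (List.range n) = List.range n)
    (hp : ∀ p, p.Prime → p ∣ n.factorial →
      (stepQ (ruleQ F))^[n.factorial / p] (List.range n) ≠ List.range n) :
    OneOrb (stepQ (ruleQ F)) (Words n) :=
  OneOrb.of_period (x0 := List.range n) (N := n.factorial) (words_finite n)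
    (stepQ_mapsTo _ _) (stepQ_injOn _ (fun x r _ => ruleQ_rot F x r) hn) (List.Perm.refl _)
    (Nat.factorial_pos n) (words_ncard n).le h0 hp

end UniS
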