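import Pool.Agent.UniS.Abs

/-!
The generators, unicursal generation, and the reduction to a one-orbit statement on lists.
-/

namespace UniS

open Equiv

/-- `G` is generated unicursally by `T`: there is a sequence of elements of `T`, of length `|G|`,
whose partial products `t 1, t 1 * t 2, ..` are pairwise distinct, the last one being `1`. -/
def Unicursal {G : Type*} [Group G] [Fintype G] (T : Set G) : Prop :=
  ∃ t : List G, t.length = Fintype.card G ∧ (∀ x ∈ t, x ∈ T) ∧
    (∀ i < t.length, ∀ j < t.length, (t.take (i + 1)).prod = (t.take (j + 1)).prod → i = j) ∧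
    t.prod = 1

/-- The transposition of the last two points. -/
def genA (n : ℕ) (h : 2 ≤ n) : Perm (Fin n) :=
  Equiv.swap ⟨n - 2, by omega⟩ ⟨n - 1, by omega⟩

/-- The cycle of the first `n - 1` points. -/
def genB (n : ℕ) : Perm (Fin n) :=
  (List.ofFn (fun i : Fin (n - 1) => (⟨i, by omega⟩ : Fin n))).formPerm

theorem unicursal_of_oneOrb {G : Type*} [Group G] [Fintype G] (T : Set G) (tau : G → G)
    (htau : ∀ g, tau g ∈ T)
    (hone : OneOrb (fun g => g * tau g) Set.univ) : Unicursal T := by
  classical
  set f : G → G := fun g => g * tau g with hf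
  have hsurj : Function.Surjective f := by
    intro y
    obtain ⟨k, hk⟩ := hone (f y) trivial y trivial
    refine ⟨f^[k] y, ?_⟩
    have h2 : f (f^[k] y) = f^[k] (f y) := by
      rw [← Function.iterate_succ_apply' f k y, Function.iterate_succ_apply]
    rw [h2]
    exact hk
  have hinj : Function.Injective f := Finite.injective_iff_surjective.mpr hsurj
  have hmi : ∀ k, Function.Injective (f^[k]) := fun k => hinj.iterate k
  set p := Function.minimalPeriod f 1 with hp
  have hper : 1 ∈ Function.periodicPts f := by
    obtain ⟨k, hk, h⟩ := exists_period (S := Set.univ) Set.finite_univ (f := f)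
      (fun _ _ => trivial) hinj.injOn (x := (1 : G)) trivial
    exact ⟨k, hk, h⟩
  have hp0 : 0 < p := Function.minimalPeriod_pos_of_mem_periodicPts hper
  have hcard : p = Fintype.card G := by
    have hbij : Function.Bijective (fun k : Fin p => f^[(k : ℕ)] 1) := by
      constructor
      · intro a b hab
        have := Function.iterate_injOn_Iio_minimalPeriod (f := f) (x := (1 : G))
          (Set.mem_Iio.mpr a.2) (Set.mem_Iio.mpr b.2) hab
        exact Fin.ext this
      · intro y
        obtain ⟨k, hk⟩ := hone 1 trivial y trivial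
        refine ⟨⟨k % p, Nat.mod_lt _ hp0⟩, ?_⟩
        simp only
        rw [hp, Function.iterate_mod_minimalPeriod_eq]
        exact hk
    have := Fintype.card_of_bijective hbij
    simpa using this
  have hN : f^[Fintype.card G] 1 = 1 := by
    rw [← hcard]
    exact Function.iterate_minimalPeriod
  have hprod : ∀ m, (((List.range m).map (fun k => tau (f^[k] 1))).prod : G) = f^[m] 1 := by
    intro m
    induction m with
    | zero => simp
    | succ m ih =>
      rw [List.range_succ, List.map_append, List.prod_append, ih, Function.iterate_succ_apply']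
      simp [hf]
  refine ⟨(List.range (Fintype.card G)).map (fun k => tau (f^[k] 1)), by simp, ?_, ?_, ?_⟩
  · intro x hx
    rw [List.mem_map] at hx
    obtain ⟨k, -, rfl⟩ := hx
    exact htau _
  · intro i hi j hj hij
    rw [List.length_map, List.length_range] at hi hj
    have htake : ∀ m, m + 1 ≤ Fintype.card G →
        (((List.range (Fintype.card G)).map (fun k => tau (f^[k] 1))).take (m + 1)).prod
          = f^[m + 1] 1 := by
      intro m hm
      rw [← List.map_take, List.take_range, min_eq_left hm, hprod]
    rw [htake i (by omega), htake j (by omega), Function.iterate_succ_apply',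
      Function.iterate_succ_apply'] at hij
    have h2 := hinj hij
    exact Function.iterate_injOn_Iio_minimalPeriod (f := f) (x := (1 : G))
      (by simpa [← hp, hcard] using hi) (by simpa [← hp, hcard] using hj) h2
  · rw [hprod, hN]

/-! ### The list form -/

/-- The marked letter (first) jumps over its successor. -/
def coldQ : List ℕ → List ℕ
  | x :: y :: r => x :: (r ++ [y])
  | l => l

/-- The letter before the mark (the last one) jumps over the mark and is marked. -/
def hotQ : List ℕ → List ℕ
  | [] => []
  | x :: r => match r.reverse with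
    | [] => [x]
    | y :: s => y :: (s.reverse ++ [x])

theorem hotQ_append (x y : ℕ) (r : List ℕ) : hotQ (x :: (r ++ [y])) = y :: (r ++ [x]) := by
  simp [hotQ]

theorem coldQ_cons (x y : ℕ) (r : List ℕ) : coldQ (x :: y :: r) = x :: (r ++ [y]) := rfl

/-- One step, `hot` being the set of circular words at which the second rule is used. -/
def stepQ (hot : List ℕ → Bool) (v : List ℕ) : List ℕ := if hot v then hotQ v else coldQ v

/-- The words with the letters `0, .., n - 1`. -/
def Words (n : ℕ) : Set (List ℕ) := {v | v.Perm (List.range n)}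

theorem coldQ_perm (v : List ℕ) : (coldQ v).Perm v := by
  match v with
  | [] => exact List.Perm.refl _
  | [x] => exact List.Perm.refl _
  | x :: y :: r => exact (List.perm_append_singleton y r).cons x

theorem hotQ_perm (v : List ℕ) : (hotQ v).Perm v := by
  match v with
  | [] => exact List.Perm.refl _
  | x :: r =>
    rcases List.eq_nil_or_concat r with rfl | ⟨s, y, rfl⟩
    · exact List.Perm.refl _
    · rw [List.concat_eq_append, hotQ_append]
      have h1 : (y :: (s ++ [x])).Perm (y :: x :: s) := (List.perm_append_singleton x s).cons y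
      have h2 : (x :: (s ++ [y])).Perm (x :: y :: s) := (List.perm_append_singleton y s).cons x
      exact h1.trans ((List.Perm.swap x y s).trans h2.symm)

theorem stepQ_mapsTo (hot : List ℕ → Bool) (n : ℕ) :
    Set.MapsTo (stepQ hot) (Words n) (Words n) := by
  intro v hv
  unfold stepQ
  split
  · exact (hotQ_perm v).trans hv
  · exact (coldQ_perm v).trans hv

theorem words_finite (n : ℕ) : (Words n).Finite := by
  have : Words n ⊆ ↑((List.range n).permutations.toFinset) := by
    intro v hv
    simp only [List.coe_toFinset, Set.mem_ofPred_eq, List.mem_permutations]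
    exact hv
  exact (Finset.finite_toSet _).subset this

/-- The word of a permutation, the held symbol first. -/
def wd {k : ℕ} (g : Perm (Fin (k + 2))) : List ℕ :=
  (g (Fin.last (k + 1)) : ℕ) :: List.ofFn (fun i : Fin (k + 1) => (g i.castSucc : ℕ))

theorem wd_injective {k : ℕ} : Function.Injective (wd : Perm (Fin (k + 2)) → List ℕ) := by
  intro g h hgh
  simp only [wd, List.cons.injEq] at hgh
  have h2 := List.ofFn_injective hgh.2
  ext i
  refine Fin.lastCases ?_ (fun j => ?_) i
  · exact hgh.1
  · exact congrFun h2 j

theorem wd_mem {k : ℕ} (g : Perm (Fin (k + 2))) : wd g ∈ Words (k + 2) := by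
  have hnd : (wd g).Nodup := by
    unfold wd
    rw [List.nodup_cons]
    constructor
    · rw [List.mem_ofFn]
      rintro ⟨i, hi⟩
      have := g.injective (Fin.ext hi)
      exact absurd this (Fin.castSucc_lt_last i).ne
    · rw [List.nodup_ofFn]
      intro i j hij
      exact Fin.castSucc_injective _ (g.injective (Fin.ext hij))
  have hlen : (wd g).length = k + 2 := by simp [wd]
  have hsub : ∀ x ∈ wd g, x ∈ List.range (k + 2) := by
    intro x hx
    rw [List.mem_range]
    unfold wd at hx
    rw [List.mem_cons, List.mem_ofFn] at hx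
    rcases hx with rfl | ⟨i, rfl⟩
    · exact (g _).2
    · exact (g _).2
  exact (hnd.subperm hsub).perm_of_length_le (by simp [hlen])

theorem wd_surj {k : ℕ} {v : List ℕ} (hv : v ∈ Words (k + 2)) :
    ∃ g : Perm (Fin (k + 2)), wd g = v := by
  have hv' : v.Perm (List.range (k + 2)) := hv
  have hlen : v.length = k + 2 := by simpa using hv'.length_eq
  have hnd : v.Nodup := hv'.nodup_iff.mpr List.nodup_range
  match v, hv', hlen, hnd with
  | x :: r, hv', hlen, hnd =>
    have hr : r.length = k + 1 := by simpa using hlen
    have hlt : ∀ y ∈ x :: r, y < k + 2 := fun y hy => by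
      simpa using hv'.subset hy
    let F : Fin (k + 2) → Fin (k + 2) := Fin.lastCases (motive := fun _ => Fin (k + 2))
      ⟨x, hlt x (by simp)⟩ (fun i => ⟨r[(i : ℕ)]'(by omega), hlt _ (by simp)⟩)
    have hFl : F (Fin.last (k + 1)) = ⟨x, hlt x (by simp)⟩ := by simp [F]
    have hFc : ∀ i : Fin (k + 1), F i.castSucc = ⟨r[(i : ℕ)]'(by omega), hlt _ (by simp)⟩ := by
      intro i; simp [F]
    have hinj : Function.Injective F := by
      intro a b hab
      rw [List.nodup_cons] at hnd
      revert hab
      refine Fin.lastCases ?_ (fun i => ?_) a <;> refine Fin.lastCases ?_ (fun j => ?_) b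
      · intro _; rfl
      · intro hab
        rw [hFl, hFc] at hab
        exact absurd (by rw [Fin.mk.injEq] at hab; rw [hab]; simp) hnd.1
      · intro hab
        rw [hFl, hFc] at hab
        exact absurd (by rw [Fin.mk.injEq] at hab; rw [← hab]; simp) hnd.1
      · intro hab
        rw [hFc, hFc, Fin.mk.injEq] at hab
        have := (hnd.2.getElem_inj_iff).mp hab
        rw [Fin.ext this]
    refine ⟨Equiv.ofBijective F (Finite.injective_iff_bijective.mp hinj), ?_⟩
    unfold wd
    congr 1
    · simp [Equiv.ofBijective_apply, hFl]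
    · apply List.ext_getElem
      · simp [hr]
      · intro i h1 h2
        rw [List.getElem_ofFn]
        simp only [Equiv.ofBijective_apply, hFc]

theorem genB_getElem {k : ℕ} (i : ℕ) (hi : i < k + 1) :
    genB (k + 2) ⟨i, by omega⟩ = ⟨(i + 1) % (k + 1), by
      have := Nat.mod_lt (i + 1) (show 0 < k + 1 by omega); omega⟩ := by
  have hnd : (List.ofFn (fun i : Fin (k + 2 - 1) => (⟨i, by omega⟩ : Fin (k + 2)))).Nodup := by
    rw [List.nodup_ofFn]
    intro a b hab
    simp only [Fin.mk.injEq] at hab
    exact Fin.ext hab
  have hlen : (List.ofFn (fun i : Fin (k + 2 - 1) => (⟨i, by omega⟩ : Fin (k + 2)))).length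
      = k + 1 := by simp
  have h := List.formPerm_apply_getElem _ hnd i (by rw [hlen]; exact hi)
  simp only [List.getElem_ofFn, hlen] at h
  exact h

theorem genB_castSucc_last {k : ℕ} :
    genB (k + 2) (Fin.last k).castSucc = (0 : Fin (k + 1)).castSucc := by
  have h := genB_getElem (k := k) k (by omega)
  have e1 : (Fin.last k).castSucc = (⟨k, by omega⟩ : Fin (k + 2)) := rfl
  rw [e1, h]
  ext
  simp

theorem genB_castSucc_lt {k : ℕ} (i : Fin k) :
    genB (k + 2) i.castSucc.castSucc = i.succ.castSucc := by
  have h := genB_getElem (k := k) i (by omega)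
  have e1 : i.castSucc.castSucc = (⟨i, by omega⟩ : Fin (k + 2)) := rfl
  rw [e1, h]
  ext
  simp only [Fin.val_castSucc, Fin.val_succ]
  exact Nat.mod_eq_of_lt (by omega)

theorem genB_last {k : ℕ} : genB (k + 2) (Fin.last (k + 1)) = Fin.last (k + 1) := by
  unfold genB
  apply List.formPerm_apply_of_notMem
  rw [List.mem_ofFn]
  rintro ⟨i, hi⟩
  have := congrArg Fin.val hi
  simp only [Fin.val_last] at this
  have := i.2
  omega

theorem wd_mul_genB {k : ℕ} (g : Perm (Fin (k + 2))) :
    wd (g * genB (k + 2)) = coldQ (wd g) := by
  unfold wd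
  rw [List.ofFn_succ' (fun i : Fin (k + 1) => ((g * genB (k + 2)) i.castSucc : ℕ)),
    List.ofFn_succ (f := fun i : Fin (k + 1) => (g i.castSucc : ℕ)), coldQ_cons]
  simp only [Perm.mul_apply, genB_last, genB_castSucc_last, genB_castSucc_lt,
    List.concat_eq_append]

theorem wd_mul_genA {k : ℕ} (g : Perm (Fin (k + 2))) :
    wd (g * genA (k + 2) (by omega)) = hotQ (wd g) := by
  have e1 : (⟨k + 2 - 2, by omega⟩ : Fin (k + 2)) = (Fin.last k).castSucc := rfl
  have e2 : (⟨k + 2 - 1, by omega⟩ : Fin (k + 2)) = Fin.last (k + 1) := rfl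
  have hA : genA (k + 2) (by omega) = Equiv.swap (Fin.last k).castSucc (Fin.last (k + 1)) := by
    unfold genA; rw [e1, e2]
  have hl : ∀ i : Fin k, genA (k + 2) (by omega) i.castSucc.castSucc = i.castSucc.castSucc := by
    intro i
    rw [hA]
    apply Equiv.swap_apply_of_ne_of_ne
    · intro h
      exact absurd (Fin.castSucc_injective _ h) (Fin.castSucc_lt_last i).ne
    · exact (Fin.castSucc_lt_last _).ne
  unfold wd
  rw [List.ofFn_succ' (fun i : Fin (k + 1) => ((g * genA (k + 2) (by omega)) i.castSucc : ℕ)),
    List.ofFn_succ' (fun i : Fin (k + 1) => (g i.castSucc : ℕ)), List.concat_eq_append,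
    List.concat_eq_append, hotQ_append]
  simp only [Perm.mul_apply, hl]
  rw [hA, Equiv.swap_apply_left, Equiv.swap_apply_right]

/-- A rule `hot` on the words of `n = k + 2` letters with one orbit gives unicursal
generation by the two generators. -/
theorem unicursal_of_stepQ {k : ℕ} (hot : List ℕ → Bool)
    (hone : OneOrb (stepQ hot) (Words (k + 2))) :
    Unicursal ({genA (k + 2) (by omega), genB (k + 2)} : Set (Perm (Fin (k + 2)))) := by
  classical
  let tau : Perm (Fin (k + 2)) → Perm (Fin (k + 2)) := fun g =>
    if hot (wd g) then genA (k + 2) (by omega) else genB (k + 2)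
  have hstep : ∀ g, wd (g * tau g) = stepQ hot (wd g) := by
    intro g
    by_cases h : hot (wd g) = true
    · simp only [tau, stepQ, h, if_true]
      exact wd_mul_genA g
    · simp only [tau, stepQ, h]
      exact wd_mul_genB g
  apply unicursal_of_oneOrb _ tau
  · intro g
    by_cases h : hot (wd g) = true
    · simp [tau, h]
    · simp [tau, h]
  · intro g _ h _
    obtain ⟨m, hm⟩ := hone _ (wd_mem g) _ (wd_mem h)
    refine ⟨m, wd_injective ?_⟩
    rw [← hm]
    clear hm
    induction m with
    | zero => rfl
    | succ m ih =>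
      rw [Function.iterate_succ_apply', Function.iterate_succ_apply', ← ih]
      exact hstep _

theorem coldQ_inj {v w : List ℕ} (hv : 2 ≤ v.length) (hw : 2 ≤ w.length)
    (h : coldQ v = coldQ w) : v = w := by
  match v, w, hv, hw with
  | x :: y :: r, x' :: y' :: r', _, _ =>
    rw [coldQ_cons, coldQ_cons] at h
    simp only [List.cons.injEq] at h
    obtain ⟨h1, h2⟩ := h
    have h3 := List.append_inj' h2 rfl
    simp only [List.cons.injEq, and_true] at h3
    rw [h1, h3.1, h3.2]

/-- The pred map of a rule. -/
def sgQ (hot : List ℕ → Bool) (v : List ℕ) : List ℕ :=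
  if hot v then (match v.reverse with
    | [] => []
    | y :: s => y :: s.reverse) else v

theorem sgQ_hot {hot : List ℕ → Bool} {r : List ℕ} {y : ℕ} (h : hot (r ++ [y]) = true) :
    sgQ hot (r ++ [y]) = y :: r := by
  simp [sgQ, h]

theorem sgQ_cold {hot : List ℕ → Bool} {v : List ℕ} (h : hot v = false) : sgQ hot v = v := by
  simp [sgQ, h]

theorem stepQ_eq (hot : List ℕ → Bool) {v : List ℕ} (hv : 2 ≤ v.length) :
    stepQ hot v = coldQ (sgQ hot v) := by
  cases h : hot v with
  | false => simp [stepQ, sgQ, h]
  | true =>
    match v, hv with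
    | x :: r, hv =>
      rcases List.eq_nil_or_concat r with rfl | ⟨s, y, rfl⟩
      · simp at hv
      · rw [List.concat_eq_append] at h ⊢
        have h' : hot ((x :: s) ++ [y]) = true := h
        have e : x :: (s ++ [y]) = (x :: s) ++ [y] := rfl
        rw [stepQ, if_pos h, hotQ_append, e, sgQ_hot h', coldQ_cons]

/-- If the rule is invariant under rotation the step is injective. -/
theorem stepQ_injOn (hot : List ℕ → Bool) {n : ℕ}
    (hrot : ∀ x r, r ++ [x] ∈ Words n → hot (x :: r) = hot (r ++ [x]))
    (hn : 2 ≤ n) : Set.InjOn (stepQ hot) (Words n) := by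
  intro v hv w hw h
  have hlv : v.length = n := by simpa using (show v.Perm (List.range n) from hv).length_eq
  have hlw : w.length = n := by simpa using (show w.Perm (List.range n) from hw).length_eq
  rw [stepQ_eq hot (by omega), stepQ_eq hot (by omega)] at h
  have hlen : ∀ u : List ℕ, (sgQ hot u).length = u.length := by
    intro u
    cases hu : hot u with
    | false => rw [sgQ_cold hu]
    | true =>
      rcases List.eq_nil_or_concat u with rfl | ⟨s, y, rfl⟩
      · simp [sgQ]
      · rw [List.concat_eq_append] at hu ⊢
        rw [sgQ_hot hu]; simp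
  have h2 := coldQ_inj (by rw [hlen]; omega) (by rw [hlen]; omega) h
  have hhot : ∀ u : List ℕ, u ∈ Words n → hot (sgQ hot u) = hot u := by
    intro u hun
    cases hu : hot u with
    | false => rw [sgQ_cold hu, hu]
    | true =>
      rcases List.eq_nil_or_concat u with rfl | ⟨s, y, rfl⟩
      · simpa [sgQ] using hu
      · rw [List.concat_eq_append] at hu hun ⊢
        rw [sgQ_hot hu, hrot y s hun, hu]
  have h3 : hot v = hot w := by rw [← hhot v hv, h2, hhot w hw]
  cases hu : hot v with
  | false =>
    rw [sgQ_cold hu, sgQ_cold (h3 ▸ hu)] at h2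
    exact h2
  | true =>
    have hu' : hot w = true := h3 ▸ hu
    rcases List.eq_nil_or_concat v with rfl | ⟨s, y, rfl⟩
    · simp at hlv; omega
    rcases List.eq_nil_or_concat w with rfl | ⟨s', y', rfl⟩
    · simp at hlw; omega
    rw [List.concat_eq_append] at hu h2 ⊢
    rw [List.concat_eq_append] at hu' h2 ⊢
    rw [sgQ_hot hu, sgQ_hot hu'] at h2
    simp only [List.cons.injEq] at h2
    rw [h2.1, h2.2]

end UniS
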